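import Pool.Agent.Helper31.NSB.Top
import Pool.Agent.Helper40.NSK.Top4
import Pool.Agent.Helper19.S12.Win
import Pool.Agent.Helper39.LIP.Rav

/-! CASE B, level 1: robustness, typical windows (`Win`), the statement of the corner theorem at level 1. Names `y R z`
of the three coordinates: `y` has the unit direction, `R` is the coordinate of the slab, `z` the one of the sheet. -/

set_option autoImplicit false

namespace Pool.Agent.Helper31.NSB

open Finset Filter Topology Pool.Agent.Helper69.RK Pool.Agent.Helper31.EC Pool.Agent.Helper31.EC.Sp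
open Pool.Agent.Helper40.EL Pool.Agent.Helper40.NSK Pool.Agent.Helper42.NS Pool.Agent.Helper52.KP
open Pool.Agent.Helper52.SL Pool.Agent.Helper80.MX Pool.Agent.Helper3.LF Pool.Agent.Helper89.LX
open Pool.Agent.Helper39.LIP Pool.Agent.Helper91.GR Pool.Agent.Helper19.S12 Set

noncomputable section

/-- the base `(y, R)` (all coordinates but `z`) has no more volume in the window `c` than the slab -/
def VolB {S : Sp} (s : Sys S 3) (y R z : Fin 3) (c : ℝ) : Prop :=
  lvolP s (prI s z) 1 c ≤ 2 * (c + la s R {0, y.succ} c)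

/-- ROBUSTNESS used in case B -/
structure Rbb (g : ℝ) {S : Sp} (s : Sys S 3) : Prop where
  g0 : 0 < g
  rich : Rich s g
  P : RobP s
  I : RobustI s
  sj : ∀ (i : Fin 3) (J : Finset (Fin 4)), RobustG (fun _ : Unit => SJ i J) s
  gd : ∀ D : ℕ, RobustG (fun _ : Unit => GD 3 D) s
  gde : ∀ (D : ℕ) (i : Fin 3), RobustG (fun _ : Unit => GDe 3 D (Pi.single i 1)) s
  gdp : RobustG (fun i : Fin 3 => GDP (selM i) 1) s
  vol : ∀ (i : Fin 3) (c : ℝ), 0 ≤ c → c < 1 → RobV s (prI s i) 1 c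
  rx : ∀ (i : Fin 3) (T : Sp) (p : Pj T S) (E : ∀ k, (T.F k).Ω → Prop) (hE : 0 < ul (T.pr E)) (r : ℝ), 0 ≤ r →
    r ≤ 1 → h (restL E hE (p.map (TR.dg (TR.cor s.x i) r))) (restL E hE (p.map (lB s))) =
      h (TR.dg (TR.cor s.x i) r) (lB s)

/-- the velocity of the coordinate `y` is rich over the point along the scales `E` -/
def RYs {S : Sp} (s : Sys S 3) (y : Fin 3) (E : ℕ → ℝ) : Prop :=
  ∃ g : ℝ, 0 < g ∧ ∀ ε : ℝ, 0 < ε → ∀ᶠ j in atTop, ∀ r : ℝ, 0 ≤ r → r ≤ 1 → ∀ (T : Sp) (p : Pj T S)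
    (A : ∀ k, (T.F k).Ω → Prop) (hA : 0 < ul (T.pr A)),
    (g * r - ε) * E j ≤ h (restL A hA (p.map (TR.dg (TR.cor s.x y) (r * E j)))) (restL A hA (p.map (lB s)))

/-- A TYPICAL WINDOW with the names `y R z`: `w1`, `w` are the speeds of the slab and of the sheet, `D` is the degree
of the forms -/
structure Win (D : ℕ) {S : Sp} (s : Sys S 3) (y R z : Fin 3) (c w1 w d : ℝ) : Prop where
  yR : y ≠ R
  yz : y ≠ z
  Rz : R ≠ z
  d0 : 0 < d
  cd : 0 < c - d
  cd1 : c + d < 1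
  vol : ∀ b ∈ Ioo (c - d) (c + d), VolB s y R z b
  lt1 : ∀ b ∈ Ioo (c - d) (c + d), eta s D b < 1
  ord : la s R {0, y.succ} c ≤ la s z {0, y.succ, R.succ} c
  top : la s z {0, y.succ, R.succ} c = eta s D c
  dl : HasDerivAt (fun b => la s R {0, y.succ} b) w1 c
  de : HasDerivAt (fun b => la s z {0, y.succ, R.succ} b) w c
  dD : HasDerivAt (fun b => eta s D b) w c
  eq : la s R {0, y.succ} c = la s z {0, y.succ, R.succ} c → w1 = w
  hw1 : 1 ≤ w1
  hw : 1 ≤ w
  dfc : ∃ a : ℝ, 0 < a ∧ ∃ y' : ℝ, y' ≤ 3 - a ∧ HasDerivAt (s.F 0) y' (eta s D c)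

/-- THE CORNER THEOREM at level 1 (case B): there are no typical windows. `TC s E c` is the conjunction of the almost
sure properties of the window `c` along the scales `E` -/
def ST_NOWIN (TC : ∀ {S : Sp}, Sys S 3 → (ℕ → ℝ) → ℝ → Prop) : Prop := ∀ D : ℕ, 4 ≤ D →
  ∀ (g : ℝ) (S : Sp) (s : Sys S 3), Rbb g s → ∀ c w1 w d : ℝ, Win D s 0 1 2 c w1 w d →
  ∀ E : ℕ → ℝ, (∀ j, 0 < E j) → Tendsto E atTop (𝓝 0) → RYs s 0 E → TC s E c → False

end

end Pool.Agent.Helper31.NSB
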