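import Pool.Agent.Helper31.NSB.Cba
import Pool.Agent.Helper97.T1.Ae
import Pool.Agent.Helper46.PM.Rbb

/-! CASE B, level 1: ASSEMBLY of `ST_CB` from the corner theorem of level 1 (`ST_NOWIN`). -/

set_option autoImplicit false

namespace Pool.Agent.Helper31.NSB

open Finset Filter Topology Pool.Agent.Helper69.RK Pool.Agent.Helper31.EC Pool.Agent.Helper31.EC.Sp
open Pool.Agent.Helper40.EL Pool.Agent.Helper40.NSK Pool.Agent.Helper42.NS Pool.Agent.Helper52.KP
open Pool.Agent.Helper52.SL Pool.Agent.Helper80.MX Pool.Agent.Helper3.LF Pool.Agent.Helper89.LX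
open Pool.Agent.Helper39.LIP Pool.Agent.Helper91.GR Pool.Agent.Helper19.S12 Set
open Pool.Agent.Helper46.PM Pool.Agent.Helper30.TYP MeasureTheory
open Pool.Agent.Helper59.EV (ST)

noncomputable section

/-- the corner theorem of level 1, with the typical windows of the row T1 -/
def NOWIN : Prop := ST_NOWIN (fun s E c => Pool.Agent.Helper97.T1.TC s E c)

/-- CASE B from the corner theorem of level 1 -/
theorem st_cb_nw (hst : ST 1 2) (hNW : NOWIN) : ST_CB := by
  obtain ⟨G, Φ, M, hM, hL⟩ := exists_rbb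
  refine ⟨4, fun D hD => ⟨G, Φ, M, hM, fun g S s hs hz hB => ?_⟩⟩
  exact cb_false hst hNW (fun E hE hE0 => by
    obtain ⟨φ, hφ, -, hae⟩ := Pool.Agent.Helper97.T1.ae_TC (ι := Equiv.Perm (Fin 3)) (S := fun _ => S)
      (fun e => s.pm e) hE hE0
    exact ⟨φ, hφ, hae⟩) (hL D g S s hs) hD (Sel4.c0_pos (by omega) hs) hs.dens hz hB

end

end Pool.Agent.Helper31.NSB
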