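import Pool.Agent.Helper31.NSB.Wex
import Pool.Agent.Helper91.GR.Vol0
import Pool.Agent.Helper30.TYP.Slx

/-! CASE B, level 1: the contradiction from the corner theorem of level 1 (`ST_NOWIN`). -/

set_option autoImplicit false

namespace Pool.Agent.Helper31.NSB

open Finset Filter Topology Pool.Agent.Helper69.RK Pool.Agent.Helper31.EC Pool.Agent.Helper31.EC.Sp
open Pool.Agent.Helper40.EL Pool.Agent.Helper40.NSK Pool.Agent.Helper42.NS Pool.Agent.Helper52.KP
open Pool.Agent.Helper52.SL Pool.Agent.Helper80.MX Pool.Agent.Helper3.LF Pool.Agent.Helper89.LX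
open Pool.Agent.Helper39.LIP Pool.Agent.Helper91.GR Pool.Agent.Helper19.S12 Set
open Pool.Agent.Helper46.PM Pool.Agent.Helper30.TYP MeasureTheory
open Pool.Agent.Helper59.EV (ST)

noncomputable section

variable {S : Sp} {s : Sys S 3} {D : ℕ} {g : ℝ}

theorem two_names (y : Fin 3) : ∃ R z : Fin 3, y ≠ R ∧ y ≠ z ∧ R ≠ z := by
  revert y
  decide

/-- THE CONTRADICTION for a selected system -/
theorem cb_false {TC : ∀ {S : Sp}, Sys S 3 → (ℕ → ℝ) → ℝ → Prop} (hst : ST 1 2) (hNW : ST_NOWIN TC)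
    (hTC : ∀ E : ℕ → ℝ, (∀ n, 0 < E n) → Tendsto E atTop (𝓝 0) → ∃ φ : ℕ → ℕ, StrictMono φ ∧
      ∀ᵐ c : ℝ, c ∈ Set.Ioo (0 : ℝ) 1 → ∀ e : Equiv.Perm (Fin 3), TC (s.pm e) (fun n => E (φ n)) c)
    (hR : ∀ e : Equiv.Perm (Fin 3), Rbb g (s.pm e)) (hD : 4 ≤ D)
    (h0 : 0 < c0 s D)
    (dens : Tendsto (fun δ : ℝ => volume (Set.Ioo (1 - δ) 1 \ defic s (3 - g / 2)) / ENNReal.ofReal δ) (𝓝[>] 0) (𝓝 0))
    (hz : ∃ i : Fin 3, ZDir s D i)
    (hB : ∀ i : Fin 3, ZDir s D i → lamI s i (c0 s D) = 1 ∨ ¬ FlatI s D i) : False := by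
  have hD1 : 1 ≤ D := by omega
  have h : Rbb g s := hR (Equiv.refl _)
  -- the last step
  have last : ∀ (y : Fin 3) (E : ℕ → ℝ), (∀ j, 0 < E j) → Tendsto E atTop (𝓝 0) → RYs s y E →
      (∀ {P : ℝ → Prop}, (∀ᵐ c : ℝ, c ∈ Set.Ioo (0 : ℝ) 1 → P c) →
        ∃ c, P c ∧ ∃ (R' z' : Fin 3) (w1 w d' : ℝ), Win D s y R' z' c w1 w d') → False := by
    intro y E hE hE0 hy hw
    obtain ⟨φ, hφ, hae⟩ := hTC E hE hE0
    obtain ⟨c, hc, R', z', w1, w, d', hwin⟩ := hw hae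
    obtain ⟨e, he⟩ := exists_nms hwin.yR hwin.yz hwin.Rz
    refine hNW D hD g S (s.pm e) (hR e) c w1 w d' (hwin.pm he) (fun n => E (φ n)) (fun j => hE _)
      (hE0.comp hφ.tendsto_atTop) ?_ (hc e)
    rw [RYs_pm, he.y]
    exact RYs.comp hy hφ.tendsto_atTop
  rcases (Sel4.c0_le_one hD1 s).lt_or_eq with h1 | h1
  · -- `c0 < 1`
    obtain ⟨z, hz⟩ := hz
    have hf : HfE s D (Pi.single z 1) (c0 s D) 1 := by
      rcases hz with h2 | h2
      · exact absurd h2 (ne_of_lt h1)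
      · exact h2
    obtain ⟨y, R, K, d, n1, n2, n3, hRY, hK, hd0, hd1, hall⟩ := nml_lt hst h hR hD1 h0 h1 dens hf (hB z hz)
    have hE0 : Tendsto (fun j : ℕ => ((1 : ℝ) / 2) ^ j) atTop (𝓝 0) :=
      tendsto_pow_atTop_nhds_zero_of_lt_one (by norm_num) (by norm_num)
    refine last y (fun j : ℕ => ((1 : ℝ) / 2) ^ j) (fun j => by positivity) hE0
      (rys_of_ryl hRY (fun j => by positivity) hE0) fun {P} hP => ?_
    exact exists_win h hD1 dens n1 n2 n3 hd0 hd1 (fun c hc => (hall c hc).1)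
      (fun c a b => volB h n1 n2 n3 hRY a.le (b.trans h1)) (fun c a b => volB h n2 n1 (Ne.symm n3) hRY a.le (b.trans h1))
      (fun c hc => (hall c hc).2) hP
  · -- `c0 = 1`
    obtain ⟨y, E, hE, hs, hy⟩ := exists_rys h
    obtain ⟨R, z, n1, n2, n3⟩ := two_names y
    have het : ∀ c, 0 ≤ c → c < 1 → eta s D c ≤ c := by
      intro c hc hc1
      have := eta_le_c0 (s := s) hD1 hc (by rw [h1]; exact hc1)
      rw [h1] at this
      linarith
    refine last y E (fun j => (hE j).1) hs.tendsto_atTop_zero hy fun {P} hP => ?_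
    have vn : ∀ (R' z' : Fin 3), y ≠ R' → y ≠ z' → R' ≠ z' → ∀ c, 0 ≤ c → c < 1 → VN s D y R' z' c := by
      intro R' z' m1 m2 m3 c hc hc1
      have e1 := het c hc hc1
      have e2 := la_le_eta (s := s) hD1 (notMem_two m1) c
      have e3 := la_ge_self (s := s) (i := z') (J := {0, y.succ, R'.succ}) hc hc1.le
      have e4 := la_le_eta (s := s) hD1 (notMem_three m2 m3) c
      exact ⟨by linarith, by linarith⟩
    refine exists_win (K := 1) (d := 1) h hD1 dens n1 n2 n3 one_pos h1.ge (fun c hc => ?_)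
      (fun c a b => vol_trivial h hD1 a.le (by rw [← h1]; exact b) (het c a.le (by rw [← h1]; exact b)))
      (fun c a b => vol_trivial h hD1 a.le (by rw [← h1]; exact b) (het c a.le (by rw [← h1]; exact b)))
      (fun c hc => Or.inl (vn R z n1 n2 n3 c (by rw [h1, sub_self] at hc; exact hc.1.le) (by rw [← h1]; exact hc.2))) hP
    have e1 := eta_ge_self (s := s) hD1 (c := c) (by rw [h1, sub_self] at hc; exact hc.1.le)
      (by have := hc.2; linarith)
    linarith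

end

end Pool.Agent.Helper31.NSB
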