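import Mathlib

/-! CASE B, level 1: the names of the two coordinates besides `y` (elementary part). `lr`, `lz`: depths of slabs of the
coordinates `R`, `z` over `(t, y)`; `eR`, `ez`: depths of sheets over all other coordinates; `et`: depth of forms. -/

set_option autoImplicit false

namespace Pool.Agent.Helper31.NSB

open Filter Topology Set

/-- names: near `c0` the deepest form is a sheet of one of the two coordinates, over the slab of the other one -/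
theorem choose_names {c0 : ℝ} (hc0 : 0 < c0) {lr lz ez eR et : ℝ → ℝ}
    (r1 : ∀ c ∈ Ico 0 c0, lr c ≤ eR c) (r2 : ∀ c ∈ Ico 0 c0, lz c ≤ ez c) (r3 : ∀ c ∈ Ico 0 c0, ez c ≤ et c)
    (r4 : ∀ c ∈ Ico 0 c0, eR c ≤ et c) (r5 : ∀ c ∈ Ico 0 c0, c ≤ lr c) (r6 : ∀ c ∈ Ico 0 c0, et c ≤ 1 - (c0 - c))
    (mr : ∀ c c', 0 ≤ c → c ≤ c' → c' < c0 → lr c - c ≤ lr c' - c')
    (h4 : ∀ ε : ℝ, 0 < ε → ∃ δ : ℝ, 0 < δ ∧ ∀ c, c0 - δ < c → c < c0 → 0 ≤ c → lr c - ε ≤ lz c)
    (h5 : (∃ c1, 0 ≤ c1 ∧ c1 < c0 ∧ ∀ c c', c1 < c → c ≤ c' → c' < c0 → lr c' - lr c = c' - c) →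
      ∀ ε : ℝ, 0 < ε → ∃ δ : ℝ, 0 < δ ∧ ∀ c, c0 - δ < c → c < c0 → 0 ≤ c → 1 - ε ≤ lr c)
    (h6 : ∀ c c', 0 ≤ c → c < c' → c' < c0 → lr c ≤ ez c → lr c - c < lr c' - c' → 0 < ez c' - c' → et c ≤ ez c)
    (h7 : ∀ c c', 0 ≤ c → c < c' → c' < c0 → lz c ≤ eR c → lz c - c < lz c' - c' → 0 < eR c' - c' → et c ≤ eR c) :
    ∃ d : ℝ, 0 < d ∧ d ≤ c0 ∧ ∀ c ∈ Ioo (c0 - d) c0, (lr c ≤ ez c ∧ ez c = et c) ∨ (lz c ≤ eR c ∧ eR c = et c) := by
  by_cases hflat : ∃ c1, 0 ≤ c1 ∧ c1 < c0 ∧ ∀ c c', c1 < c → c ≤ c' → c' < c0 → lr c' - lr c = c' - c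
  · obtain ⟨c1, hc1', hc2, hf⟩ := hflat
    have h8 := h5 ⟨c1, hc1', hc2, hf⟩
    refine ⟨c0 - c1, by linarith, by linarith, fun c hc => Or.inr ?_⟩
    have hc3 : c1 < c := by linarith [hc.1]
    have hc4 : 0 ≤ c := by linarith
    have hm : c ∈ Ico 0 c0 := ⟨hc4, hc.2⟩
    have h9 : et c ≤ lr c := by
      refine (r6 c hm).trans ?_
      apply le_of_forall_pos_le_add
      intro e he
      obtain ⟨δ, hδ, h10⟩ := h8 e he
      obtain ⟨c', a1, a2, a3⟩ : ∃ c', c ≤ c' ∧ c0 - δ < c' ∧ c' < c0 := by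
        refine ⟨max c (c0 - δ / 2), le_max_left _ _, lt_of_lt_of_le (by linarith) (le_max_right _ _), ?_⟩
        exact max_lt hc.2 (by linarith)
      have h11 := h10 c' a2 a3 (by linarith)
      have h12 := hf c c' hc3 a1 a3
      linarith
    have h10 : lr c ≤ eR c := r1 c hm
    have h11 := r4 c hm
    have h12 := r2 c hm
    have h13 := r3 c hm
    exact ⟨by linarith, by linarith⟩
  · -- not flat
    have hnf : ∀ c, 0 ≤ c → c < c0 → ∃ c', c < c' ∧ c' < c0 ∧ lr c - c < lr c' - c' := by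
      intro c h0 h1
      by_contra hno
      push Not at hno
      apply hflat
      refine ⟨c, h0, h1, fun x x' hx hxx hx' => ?_⟩
      have b1 := hno x' (by linarith) hx'
      have b2 := mr c x h0 hx.le (by linarith)
      have b3 := mr x x' (by linarith) hxx hx'
      linarith
    obtain ⟨c1, hc1', hc2, hc3⟩ := hnf 0 le_rfl hc0
    have hκ : 0 < lr c1 - c1 := by
      have := r5 0 ⟨le_rfl, hc0⟩
      linarith
    have hκ2 : ∀ c, c1 ≤ c → c < c0 → lr c1 - c1 ≤ lr c - c := fun c h1 h2 => mr c1 c hc1'.le h1 h2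
    refine ⟨c0 - c1, by linarith, by linarith, fun c hc => ?_⟩
    have hc4 : c1 < c := by linarith [hc.1]
    have hc5 : 0 ≤ c := by linarith
    have hm : c ∈ Ico 0 c0 := ⟨hc5, hc.2⟩
    rcases le_or_gt (lr c) (ez c) with h | h
    · refine Or.inl ⟨h, le_antisymm (r3 c hm) ?_⟩
      obtain ⟨c', b1, b2, b3⟩ := hnf c hc5 hc.2
      obtain ⟨δ, hδ, h10⟩ := h4 ((lr c1 - c1) / 2) (by linarith)
      obtain ⟨c'', a1, a2, a3⟩ : ∃ c'', c' ≤ c'' ∧ c0 - δ < c'' ∧ c'' < c0 := by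
        refine ⟨max c' (c0 - δ / 2), le_max_left _ _, lt_of_lt_of_le (by linarith) (le_max_right _ _), ?_⟩
        exact max_lt b2 (by linarith)
      have h11 := h10 c'' a2 a3 (by linarith)
      have h12 := mr c' c'' (by linarith) a1 a3
      have h13 := hκ2 c'' (by linarith) a3
      have h14 := r2 c'' ⟨by linarith, a3⟩
      exact h6 c c'' hc5 (by linarith) a3 h (by linarith) (by linarith)
    · have h15 := r2 c hm
      have h16 := r1 c hm
      refine Or.inr ⟨by linarith, le_antisymm (r4 c hm) ?_⟩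
      obtain ⟨δ, hδ, h10⟩ := h4 ((lr c - lz c) / 2) (by linarith)
      obtain ⟨c'', a1, a2, a3⟩ : ∃ c'', c < c'' ∧ c0 - δ < c'' ∧ c'' < c0 := by
        refine ⟨max ((c + c0) / 2) (c0 - δ / 2), lt_of_lt_of_le (by linarith [hc.2]) (le_max_left _ _),
          lt_of_lt_of_le (by linarith) (le_max_right _ _), ?_⟩
        exact max_lt (by linarith [hc.2]) (by linarith)
      have h11 := h10 c'' a2 a3 (by linarith)
      have h12 := mr c c'' hc5 a1.le a3
      have h13 := hκ2 c'' (by linarith) a3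
      have h14 := r1 c'' ⟨by linarith, a3⟩
      exact h7 c c'' hc5 a1 a3 (by linarith) (by linarith) (by linarith)

end Pool.Agent.Helper31.NSB
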