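import Pool.Agent.Helper31.NSB.Lev
import Pool.Agent.Helper31.NSB.Nma
import Pool.Agent.Helper82.CNT.Main
import Pool.Agent.Helper42.NS.Np2
import Pool.Agent.Helper46.LIN.L1M
import Pool.Agent.Helper46.PM.Nam
import Pool.Agent.Helper3.H3.Ry
import Pool.Agent.Helper30.RY.Main
import Pool.Agent.Helper91.GR.Sub
import Pool.Agent.Helper59.GR.Shf

/-! CASE B, level 1: facts about the window functions of a robust system (slabs `la_R`, sheets `la_z`, forms `eta`)
below the first window `c0` with a form of full depth. -/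

set_option autoImplicit false

namespace Pool.Agent.Helper31.NSB

open Finset Filter Topology Pool.Agent.Helper69.RK Pool.Agent.Helper31.EC Pool.Agent.Helper31.EC.Sp
open Pool.Agent.Helper40.EL Pool.Agent.Helper40.NSK Pool.Agent.Helper42.NS Pool.Agent.Helper52.KP
open Pool.Agent.Helper52.SL Pool.Agent.Helper80.MX Pool.Agent.Helper3.LF Pool.Agent.Helper89.LX
open Pool.Agent.Helper39.LIP Pool.Agent.Helper91.GR Pool.Agent.Helper19.S12 Pool.Agent.Helper59.GR Set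
open Pool.Agent.Helper3.SG Pool.Agent.Helper3.H3 Pool.Agent.Helper46.PM
open Pool.Agent.Helper59.EV (ST)

noncomputable section

theorem names_j {y R z : Fin 3} (h1 : y ≠ R) (h2 : y ≠ z) (h3 : R ≠ z) :
    ∃ j : Fin 2, z.succAbove j = R ∧ z.succAbove (1 - j) = y := by
  revert y R z
  decide

theorem j_names (z : Fin 3) (j : Fin 2) : z.succAbove (1 - j) ≠ z.succAbove j ∧ z.succAbove (1 - j) ≠ z ∧
    z.succAbove j ≠ z := by
  revert z j
  decide

theorem jz_eq {y R z : Fin 3} (h1 : y ≠ R) (h2 : y ≠ z) (h3 : R ≠ z) :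
    ({0, y.succ, R.succ} : Finset (Fin 4)) = Finset.univ.erase z.succ := by
  revert y R z
  decide

theorem notMem_two {y z : Fin 3} (h : y ≠ z) : z.succ ∉ ({0, y.succ} : Finset (Fin 4)) := by
  revert y z
  decide

theorem notMem_three {y R z : Fin 3} (h : y ≠ z) (h' : R ≠ z) : z.succ ∉ ({0, y.succ, R.succ} : Finset (Fin 4)) := by
  revert y R z
  decide

theorem sub_three (y R : Fin 3) : ({0, y.succ} : Finset (Fin 4)) ⊆ {0, y.succ, R.succ} := by
  revert y R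
  decide

theorem comm_three (y R : Fin 3) : ({0, y.succ, R.succ} : Finset (Fin 4)) = insert R.succ {0, y.succ} := by
  revert y R
  decide

variable {S : Sp} {s : Sys S 3} {D : ℕ} {g : ℝ}

theorem Rbb.robSl (h : Rbb g s) (z : Fin 3) : RobSl s z := fun j T p E hE c σ => h.sj _ _ () T p E hE c σ

section
variable (hD : 1 ≤ D)
include hD

theorem la_le_eta {i : Fin 3} {J : Finset (Fin 4)} (hi : i.succ ∉ J) (c : ℝ) : la s i J c ≤ eta s D c :=
  le_eta (Hf_of_SJD hD hi (HH_la c))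

theorem eta_lt_one {c : ℝ} (h0 : 0 ≤ c) (hc : c < c0 s D) : eta s D c < 1 := by
  rcases (eta_le_one (s := s) hD c).lt_or_eq with h | h
  · exact h
  · exfalso
    have h1 := Hf_eta (s := s) hD c
    rw [h] at h1
    exact Sel4.not_Hf h0 hc h1

theorem eta_le_c0 {c : ℝ} (h0 : 0 ≤ c) (hc : c < c0 s D) : eta s D c ≤ 1 - (c0 s D - c) := by
  have h2 := Sel4.c0_le_one hD s
  have h1 : ∀ c', c < c' → c' < c0 s D → eta s D c ≤ 1 - (c' - c) := by
    intro c' h1 h3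
    have h4 := eta_speed (s := s) hD h0 h1.le (by linarith)
    have h5 := eta_lt_one (s := s) hD (h0.trans h1.le) h3
    rcases min_le_iff.mp h4 with h6 | h6
    · linarith
    · linarith
  apply le_of_forall_pos_le_add
  intro e he
  obtain ⟨c', a1, a2, a3⟩ : ∃ c', c < c' ∧ c0 s D - e < c' ∧ c' < c0 s D := by
    refine ⟨max ((c + c0 s D) / 2) (c0 s D - e / 2), lt_of_lt_of_le (by linarith) (le_max_left _ _),
      lt_of_lt_of_le (by linarith) (le_max_right _ _), ?_⟩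
    exact max_lt (by linarith) (by linarith)
  have := h1 c' a1 a3
  linarith

theorem la_diff {i : Fin 3} {J : Finset (Fin 4)} (hi : i.succ ∉ J) {c c' : ℝ} (h0 : 0 ≤ c) (hcc : c ≤ c')
    (hc : c' ≤ 1) (he : eta s D c' < 1) : la s i J c - c ≤ la s i J c' - c' := by
  have h4 := la_speed (s := s) (i := i) (J := J) h0 hcc hc
  have h5 := la_le_eta (s := s) hD hi c'
  rcases min_le_iff.mp h4 with h6 | h6
  · linarith
  · linarith

end

/-- the slab is as deep as the planks of the base -/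
theorem lamI_la {g : ℝ} (hb : Rbb g s) {y R z : Fin 3} (h1 : y ≠ R) (h2 : y ≠ z) (h3 : R ≠ z) (hRY : RYl s y) {c : ℝ}
    (hc : 0 ≤ c) (hc1 : c < 1) : lamI s z c = la s R {0, y.succ} c := by
  obtain ⟨j, rfl, rfl⟩ := names_j h1 h2 h3
  exact lamI_ry (hb.robSl z) hRY hc hc1

/-- VOLUME of the base -/
theorem volB {g : ℝ} (hb : Rbb g s) {y R z : Fin 3} (h1 : y ≠ R) (h2 : y ≠ z) (h3 : R ≠ z) (hRY : RYl s y) {c : ℝ}
    (hc : 0 ≤ c) (hc1 : c < 1) : VolB s y R z c := by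
  obtain ⟨j, rfl, rfl⟩ := names_j h1 h2 h3
  exact vol_ry' hb.gdp (hb.robSl z) hRY hc hc1

/-- FULLNESS of the base -/
theorem fulB {g : ℝ} (hst : ST 1 2) (hb : Rbb g s) {y R z : Fin 3} (h1 : y ≠ R) (h2 : y ≠ z) (h3 : R ≠ z)
    (hRY : RYl s y) {c : ℝ} (hc : 0 ≤ c) (hc1 : c < 1) {l : Lab S} (hl : IsKap s c l) :
    (1 - c) + (1 - la s R {0, y.succ} c) ≤
      h (up1 l (TR.dg (TR.cor s.P y) 1 ⊔ TR.dg (TR.cor s.P R) 1)) (up1 l s.T) := by
  obtain ⟨j, rfl, rfl⟩ := names_j h1 h2 h3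
  have ht : Typ (S := l.ovr 1 one_pos) (fun _ _ => True) := Typ_true
  have h2 := full_ry hst hb.gdp (hb.robSl z) hRY hc hc1 hl.1 (Pj.id (l.ovr 1 one_pos)) (fun _ _ => True)
    (ul_pr_typ_pos _ ht)
  rw [Pj.id_map, Pj.id_map, h_restL_typ _ ht] at h2
  exact h2

/-- fullness of the point -/
theorem fulP {g : ℝ} (hst : ST 1 2) (hb : Rbb g s) {y R z : Fin 3} (h1 : y ≠ R) (h2 : y ≠ z) (h3 : R ≠ z)
    (hRY : RYl s y) {c : ℝ} (hc : 0 ≤ c) (hc1 : c < 1) {l : Lab S} (hl : IsKap s c l) :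
    (1 - c) + (1 - la s R {0, y.succ} c) ≤ h (up1 l (s.P.dg 1)) (up1 l s.T) := by
  refine (fulB hst hb h1 h2 h3 hRY hc hc1 hl).trans (h_mono (up1_mono l ?_))
  exact sup_le (TR.cor_dg_le s.P y 1) (TR.cor_dg_le s.P R 1)

theorem exists_isKap (s : Sys S 3) (c : ℝ) : ∃ l : Lab S, IsKap s c l := by
  obtain ⟨x, hx⟩ := exists_can s 1 c
  exact ⟨_, hx.2⟩

/-- the slab of `z` is not thinner than the slab of `R`, if there is a form of full depth in the direction `z` -/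
theorem l9 {g : ℝ} (hst : ST 1 2) (hb : Rbb g s) {y R z : Fin 3} (h1 : y ≠ R) (h2 : y ≠ z) (h3 : R ≠ z)
    (hRY : RYl s y) {c σ : ℝ} (hc : 0 ≤ c) (hc1 : c < 1) (hf : HfE s D (Pi.single z 1) c σ) :
    la s R {0, y.succ} c - (1 - σ) ≤ la s z {0, y.succ} c := by
  obtain ⟨l, hl⟩ := exists_isKap s c
  have a1 := Pool.Agent.Helper82.CNT.b_cnt h1 h2 h3 hc1.le hf hl
  have a2 := fulP hst hb h2 h1 (Ne.symm h3) hRY hc hc1 hl
  linarith

/-- LIN1 for the fixed names -/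
theorem l10 {g : ℝ} (hst : ST 1 2) (hb : Rbb g s) (hRY : RYl s 0) (hD : 1 ≤ D) {c c' : ℝ} (hc : 0 ≤ c) (hcc : c < c')
    (hc1 : c' < 1) (het : eta s D c' < 1) (hle : la s 1 {0, 1} c ≤ la s 2 {0, 1, 2} c)
    (hlam : la s 1 {0, 1} c - c < la s 1 {0, 1} c' - c') (h3 : 0 < la s 2 {0, 1, 2} c' - c') :
    eta s D c ≤ la s 2 {0, 1, 2} c := by
  have n1 : (1 : Fin 3).succ ∉ ({0, 1} : Finset (Fin 4)) := by decide
  have n2 : (2 : Fin 3).succ ∉ ({0, 1, 2} : Finset (Fin 4)) := by decide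
  have het' : ∀ x ∈ Set.Icc c c', eta s D x < 1 := fun x hx => lt_of_le_of_lt (eta_mono hD hx.2) het
  refine Pool.Agent.Helper46.LIN.lin1_rob hb.g0 hb.rich hc hcc hc1.le (lam := la s 1 {0, 1}) (eta := la s 2 {0, 1, 2})
    (fun _ _ => la_le_one _) (fun _ _ => la_le_one _) (fun _ _ => la_nonneg _)
    (fun x hx => la_ge_self (hc.trans hx.1) (hx.2.trans hc1.le))
    (fun x hx y hy hxy => la_diff hD n1 (hc.trans hx.1) hxy (hy.2.trans hc1.le) (het' y hy))
    (fun x hx y hy hxy => la_diff hD n2 (hc.trans hx.1) hxy (hy.2.trans hc1.le) (het' y hy))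
    (fun x _ => HH_la x) (fun x _ => HH_la x) (fun x hx l hl => ?_) (fun T p E hE σ' hσ => ?_) (fun σ' _ hσ => le_la hσ)
    (Hf_eta hD c) hle ?_ hlam h3
  · exact fulB (s := s) (y := 0) (R := 1) (z := 2) hst hb (by decide) (by decide) (by decide) hRY (hc.trans hx.1)
      (lt_of_le_of_lt hx.2 hc1) hl
  · exact ((hb.sj 2 {0, 1, 2}).HH_im () p E hE c σ').mp hσ
  · exact lt_of_le_of_lt (la_le_eta hD n2 c) (het' c ⟨le_rfl, hcc.le⟩)

theorem RYl_pme (s : Sys S 3) (e : Equiv.Perm (Fin 3)) (y : Fin 3) : RYl (s.pm e) y ↔ RYl s (e y) := by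
  unfold RYl
  simp only [pm_cor_h]

/-- LIN1 for all names -/
theorem l10' {g : ℝ} (hst : ST 1 2) (hb : ∀ e : Equiv.Perm (Fin 3), Rbb g (s.pm e)) {y R z : Fin 3} (h1 : y ≠ R)
    (h2 : y ≠ z) (h3 : R ≠ z) (hRY : RYl s y) (hD : 1 ≤ D) {c c' : ℝ} (hc : 0 ≤ c) (hcc : c < c')
    (hc1 : c' < 1) (het : eta s D c' < 1) (hle : la s R {0, y.succ} c ≤ la s z {0, y.succ, R.succ} c)
    (hlam : la s R {0, y.succ} c - c < la s R {0, y.succ} c' - c') (h4 : 0 < la s z {0, y.succ, R.succ} c' - c') :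
    eta s D c ≤ la s z {0, y.succ, R.succ} c := by
  obtain ⟨e, he⟩ := exists_nms h1 h2 h3
  have hy : RYl (s.pm e) 0 := by
    rw [RYl_pme, he.y]
    exact hRY
  have := l10 (s := s.pm e) (D := D) hst (hb e) hy hD hc hcc hc1 (by rw [eta_pm]; exact het)
    (by rw [he.la_R, he.la_z]; exact hle) (by rw [he.la_R, he.la_R]; exact hlam) (by rw [he.la_z]; exact h4)
  rw [eta_pm, he.la_z] at this
  exact this

end

end Pool.Agent.Helper31.NSB
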