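import Pool.Agent.Helper31.NSB.Nmf

/-! CASE B, level 1: the names of the coordinates near the first window `c0 < 1` with a form of full depth. -/

set_option autoImplicit false

namespace Pool.Agent.Helper31.NSB

open Finset Filter Topology Pool.Agent.Helper69.RK Pool.Agent.Helper31.EC Pool.Agent.Helper31.EC.Sp
open Pool.Agent.Helper40.EL Pool.Agent.Helper40.NSK Pool.Agent.Helper42.NS Pool.Agent.Helper52.KP
open Pool.Agent.Helper52.SL Pool.Agent.Helper80.MX Pool.Agent.Helper3.LF Pool.Agent.Helper89.LX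
open Pool.Agent.Helper39.LIP Pool.Agent.Helper91.GR Pool.Agent.Helper19.S12 Pool.Agent.Helper59.GR Set
open Pool.Agent.Helper3.SG Pool.Agent.Helper3.H3 Pool.Agent.Helper46.PM MeasureTheory
open Pool.Agent.Helper59.EV (ST)

noncomputable section

variable {S : Sp} {s : Sys S 3} {D : ℕ} {g : ℝ}

/-- the planks of the base are deeper than the window `c0` -/
theorem lamI_gt (h0 : 0 < c0 s D) (h1 : c0 s D < 1) {z : Fin 3}
    (hB : lamI s z (c0 s D) = 1 ∨ ¬ FlatI s D z) : c0 s D < lamI s z (c0 s D) := by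
  rcases hB with h | h
  · rw [h]
    exact h1
  · by_contra hno
    push Not at hno
    apply h
    have hF : Fac s (prI s z) := Fac.pr s _ _ _ _
    have key : ∀ c, 0 ≤ c → c < c0 s D → lamI s z c = c := by
      intro c hc hcc
      apply le_antisymm _ (lamP_ge_self hF le_rfl hc (by linarith))
      have h2 := lamP_speed (D := 1) hF le_rfl hc hcc.le h1.le
      rcases min_le_iff.mp (h2.trans hno) with h3 | h3
      · linarith
      · have h4 : lamI s z c = lamP s (prI s z) 1 c := rfl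
        linarith
    refine ⟨0, le_rfl, h0, fun c c' a1 a2 a3 => ?_⟩
    rw [key c a1.le (by linarith), key c' (by linarith) a3]

/-- the coordinate `y` and the names at `c0` -/
theorem exists_ryl (h : Rbb g s) (h0 : 0 < c0 s D) (h1 : c0 s D < 1) {z : Fin 3}
    (hz : HfE s D (Pi.single z 1) (c0 s D) 1) (hB : lamI s z (c0 s D) = 1 ∨ ¬ FlatI s D z) :
    ∃ y R : Fin 3, y ≠ R ∧ y ≠ z ∧ R ≠ z ∧ RYl s y := by
  have h2 := lamI_gt h0 h1 hB
  have h3 := Pool.Agent.Helper46.LI.lamI_eq z (h.robSl z) h0.le h1.le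
  obtain ⟨j, hj⟩ : ∃ j : Fin 2, la s (z.succAbove j) {0, (z.succAbove (1 - j)).succ} (c0 s D) =
      lamI s z (c0 s D) := by
    rcases max_choice (la s (z.succAbove 0) {0, (z.succAbove 1).succ} (c0 s D))
      (la s (z.succAbove 1) {0, (z.succAbove 0).succ} (c0 s D)) with h4 | h4
    · refine ⟨0, ?_⟩
      rw [h3, h4]
      rfl
    · refine ⟨1, ?_⟩
      rw [h3, h4]
      rfl
  obtain ⟨n1, n2, n3⟩ := j_names z j
  refine ⟨z.succAbove (1 - j), z.succAbove j, n1, n2, n3, ?_⟩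
  refine Pool.Agent.Helper30.RY.rYl n1 n2 n3 h0.le h1 h2 (lamP_le_one le_rfl _) h.g0 h.rich hz ?_
  rw [← hj]
  exact HH_la _

/-- VALID NAMES at the window `c` -/
def VN (s : Sys S 3) (D : ℕ) (y R z : Fin 3) (c : ℝ) : Prop :=
  la s R {0, y.succ} c ≤ la s z {0, y.succ, R.succ} c ∧ la s z {0, y.succ, R.succ} c = eta s D c

/-- NAMES near the first window `c0 < 1` -/
theorem nml_lt (hst : ST 1 2) (h : Rbb g s) (hpm : ∀ e : Equiv.Perm (Fin 3), Rbb g (s.pm e)) (hD : 1 ≤ D)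
    (h0 : 0 < c0 s D) (h1 : c0 s D < 1)
    (dens : Tendsto (fun δ : ℝ => volume (Set.Ioo (1 - δ) 1 \ defic s (3 - g / 2)) / ENNReal.ofReal δ) (𝓝[>] 0) (𝓝 0))
    {z : Fin 3} (hz : HfE s D (Pi.single z 1) (c0 s D) 1) (hB : lamI s z (c0 s D) = 1 ∨ ¬ FlatI s D z) :
    ∃ (y R : Fin 3) (K d : ℝ), y ≠ R ∧ y ≠ z ∧ R ≠ z ∧ RYl s y ∧ 0 ≤ K ∧ 0 < d ∧ d ≤ c0 s D ∧
      ∀ c ∈ Set.Ioo (c0 s D - d) (c0 s D), 1 - eta s D c ≤ K * (c0 s D - c) ∧ (VN s D y R z c ∨ VN s D y z R c) := by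
  obtain ⟨y, R, n1, n2, n3, hRY⟩ := exists_ryl h h0 h1 hz hB
  have n3' := Ne.symm n3
  have m1 : R.succ ∉ ({0, y.succ} : Finset (Fin 4)) := notMem_two n1
  have m2 : z.succ ∉ ({0, y.succ} : Finset (Fin 4)) := notMem_two n2
  have m3 : z.succ ∉ ({0, y.succ, R.succ} : Finset (Fin 4)) := notMem_three n2 n3
  have m4 : R.succ ∉ ({0, y.succ, z.succ} : Finset (Fin 4)) := notMem_three n1 n3'
  obtain ⟨c₀, hc₀⟩ : ∃ c₀ : ℝ, c₀ = c0 s D := ⟨_, rfl⟩
  -- NJP
  have hnj : ∀ ε : ℝ, 0 < ε → ∃ δ : ℝ, 0 < δ ∧ ∀ c', c0 s D - δ < c' → c' < c0 s D → 0 ≤ c' →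
      HfE s D (Pi.single z 1) c' (1 - ε) := by
    refine njp3 s n1 n2 n3 h0.le h1 le_rfl (la_le_one _) (h.gde D z) hz (HH_la _) fun l hl => ?_
    have := fulP hst h n1 n2 n3 hRY h0.le h1 hl
    linarith
  -- the slab at c0
  have hl9 := l9 hst h n1 n2 n3 hRY h0.le h1 hz
  rw [sub_self, sub_zero] at hl9
  have hlam0 := lamI_la h n1 n2 n3 hRY h0.le h1
  -- the case of full depth
  have hK : la s R {0, y.succ} (c0 s D) = 1 → ∀ c, 0 ≤ c → c < c0 s D →
      1 - (1 + 3 / g) * (c0 s D - c) ≤ la s R {0, y.succ} c := by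
    intro hone c hc hcc
    obtain ⟨j, e1, e2⟩ := names_j n1 n2 n3
    have hz1 : la s z {0, y.succ} (c0 s D) = 1 := le_antisymm (la_le_one _) (by rw [← hone]; exact hl9)
    have eR : (cdz z j).R = R := e1
    have ez : (cdz z j).z = z := rfl
    have eJ : (cdz z j).JR = {0, y.succ} := by rw [cdz_JR, e2]
    have eJz : (cdz z j).Jz = {0, y.succ, R.succ} := by rw [cdz_Jz, jz_eq n1 n2 n3]
    have hful : 1 - c0 s D ≤ s.F 0 1 - Helper40.EL.ic s (c0 s D) := by
      obtain ⟨j', a1, a2, a3⟩ := exists_names (J := {0, y.succ}) hst h.g0 h.rich z h.gdp (h.robSl z) h0.le h1 m2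
        (by have := HH_la (s := s) (i := z) (J := {0, y.succ}) (c0 s D); rwa [hz1] at this)
      have := lamP_le_one (s := s) (s' := prI s z) (D := 1) le_rfl (c0 s D)
      have e5 : lamI s z (c0 s D) = lamP s (prI s z) 1 (c0 s D) := rfl
      linarith
    have := lip_two (s := s) (C := cdz z j) (c0 := c0 s D) h.g0 h0.le h1 h.rich
      (fun T p E hE c σ => h.sj _ _ () T p E hE c σ) (fun T p E hE c σ => h.sj _ _ () T p E hE c σ)
      (by rw [ez, eJz]
          refine HH_iff_la.mpr ?_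
          rw [← hz1]
          exact la_mono_J (sub_three y R) _)
      (by rw [eR, eJ]
          refine HH_iff_la.mpr ?_
          rw [← hone]) hful hc hcc.le
    rw [eR, eJ] at this
    exact this.1
  -- names
  have hx0 : ∀ {c : ℝ}, c < c0 s D → c < 1 := fun hc => hc.trans h1
  have hh4 : ∀ ε : ℝ, 0 < ε → ∃ δ : ℝ, 0 < δ ∧ ∀ c, c0 s D - δ < c → c < c0 s D → 0 ≤ c →
      la s R {0, y.succ} c - ε ≤ la s z {0, y.succ} c := by
    intro ε hε
    obtain ⟨δ, hδ, h2⟩ := hnj ε hε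
    refine ⟨δ, hδ, fun c a1 a2 a3 => ?_⟩
    have := l9 hst h n1 n2 n3 hRY a3 (hx0 a2) (h2 c a1 a2 a3)
    linarith
  have hh5 : (∃ c1, 0 ≤ c1 ∧ c1 < c0 s D ∧ ∀ c c', c1 < c → c ≤ c' → c' < c0 s D →
      la s R {0, y.succ} c' - la s R {0, y.succ} c = c' - c) →
      ∀ ε : ℝ, 0 < ε → ∃ δ : ℝ, 0 < δ ∧ ∀ c, c0 s D - δ < c → c < c0 s D → 0 ≤ c → 1 - ε ≤ la s R {0, y.succ} c := by
    intro hfl ε hε
    have hone : la s R {0, y.succ} (c0 s D) = 1 := by
      rw [← hlam0]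
      rcases hB with hB | hB
      · exact hB
      · exfalso
        apply hB
        obtain ⟨c1, b1, b2, b3⟩ := hfl
        refine ⟨c1, b1, b2, fun c c' a1 a2 a3 => ?_⟩
        rw [lamI_la h n1 n2 n3 hRY (b1.trans a1.le) (hx0 (lt_of_le_of_lt a2 a3)),
          lamI_la h n1 n2 n3 hRY ((b1.trans a1.le).trans a2) (hx0 a3)]
        exact b3 c c' a1 a2 a3
    have hg := h.g0
    have hk : 0 < 1 + 3 / g := by positivity
    refine ⟨ε / (1 + 3 / g), div_pos hε hk, fun c a1 a2 a3 => ?_⟩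
    have h2 := hK hone c a3 a2
    have h4 : c0 s D - c < ε / (1 + 3 / g) := by linarith
    rw [lt_div_iff₀ hk] at h4
    linarith
  obtain ⟨d, hd0, hd1, hd⟩ := choose_names (c0 := c0 s D) (lr := la s R {0, y.succ}) (lz := la s z {0, y.succ})
    (eR := la s R {0, y.succ, z.succ}) (ez := la s z {0, y.succ, R.succ}) (et := eta s D) h0
    (fun c _ => la_mono_J (sub_three y z) c) (fun c _ => la_mono_J (sub_three y R) c) (fun c _ => la_le_eta hD m3 c)
    (fun c _ => la_le_eta hD m4 c) (fun c hc => la_ge_self hc.1 (hc.2.le.trans h1.le))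
    (fun c hc => eta_le_c0 hD hc.1 hc.2)
    (fun c c' a1 a2 a3 => la_diff hD m1 a1 a2 (a3.le.trans h1.le) (eta_lt_one hD (a1.trans a2) a3))
    hh4 hh5
    (fun c c' a1 a2 a3 a4 a5 a6 => l10' hst hpm n1 n2 n3 hRY hD a1 a2 (hx0 a3) (eta_lt_one hD (a1.trans a2.le) a3)
      a4 a5 a6)
    (fun c c' a1 a2 a3 a4 a5 a6 => l10' hst hpm n2 n1 n3' hRY hD a1 a2 (hx0 a3) (eta_lt_one hD (a1.trans a2.le) a3)
      a4 a5 a6)
  -- names are valid, LIP
  have hlip : ∃ (K d' : ℝ), 0 ≤ K ∧ 0 < d' ∧ ∀ c ∈ Set.Ioo (c0 s D - d') (c0 s D), 0 ≤ c →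
      1 - eta s D c ≤ K * (c0 s D - c) := by
    rcases (la_le_one (s := s) (i := R) (J := {0, y.succ}) (c0 s D)).lt_or_eq with hlt | hone
    · -- lambda0 < 1
      have het1 : ∀ ε : ℝ, 0 < ε → ∃ δ : ℝ, 0 < δ ∧ ∀ c', c0 s D - δ < c' → c' < c0 s D → 0 ≤ c' →
          1 - ε ≤ eta s D c' := by
        intro ε hε
        obtain ⟨δ, hδ, h2⟩ := hnj ε hε
        exact ⟨δ, hδ, fun c' a1 a2 a3 => le_eta (Hf_of_HfE (h2 c' a1 a2 a3))⟩
      have hb : 3 - g / 2 < 3 := by
        have := h.g0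
        linarith
      have hclose : ∀ (i : Fin 3) (J : Finset (Fin 4)),
          (∀ δ : ℝ, 0 < δ → ∃ c, c0 s D - δ < c ∧ c < c0 s D ∧ 0 ≤ c ∧ la s i J c = eta s D c) →
          HH (SJ i J) s (c0 s D) 1 := by
        intro i J hac
        rw [HH_iff_la]
        apply le_of_forall_pos_le_add
        intro ε hε
        obtain ⟨δ, hδ, h2⟩ := het1 ε hε
        obtain ⟨c, a1, a2, a3, a4⟩ := hac δ hδ
        have h5 := h2 c a1 a2 a3
        have h6 := la_mono (s := s) (i := i) (J := J) a2.le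
        linarith
      by_cases hac : ∀ δ : ℝ, 0 < δ → ∃ c, c0 s D - δ < c ∧ c < c0 s D ∧ 0 ≤ c ∧
          la s z {0, y.succ, R.succ} c = eta s D c
      · have h2 := hclose z _ hac
        obtain ⟨Cc, hCc, hl⟩ := lip_eta hb h.g0 hst hD
        obtain ⟨d', a1, a2, a3⟩ := hl h0 h.P h.I h.rich h.gdp (h.robSl z) m3 h2 (by rw [hlam0]; exact hlt) dens
        exact ⟨Cc, d', hCc, a1, fun c hc _ => a3 c hc⟩
      · push Not at hac
        obtain ⟨δ, hδ, hac⟩ := hac
        have h2 := hclose R {0, y.succ, z.succ} (by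
          intro δ' hδ'
          obtain ⟨c, a1, a2, a3, a4⟩ : ∃ c, c0 s D - δ' < c ∧ c0 s D - δ < c ∧ c0 s D - d < c ∧ c < c0 s D := by
            refine ⟨c0 s D - min δ' (min δ d) / 2, ?_, ?_, ?_, ?_⟩
            · have := min_le_left δ' (min δ d)
              linarith
            · have := (min_le_right δ' (min δ d)).trans (min_le_left δ d)
              linarith
            · have := (min_le_right δ' (min δ d)).trans (min_le_right δ d)
              linarith
            · have : 0 < min δ' (min δ d) := lt_min hδ' (lt_min hδ hd0)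
              linarith
          refine ⟨c, a1, a4, by linarith, ?_⟩
          rcases hd c ⟨a3, a4⟩ with b | b
          · exact absurd b.2 (hac c a2 a4 (by linarith))
          · exact b.2)
        have hlz : la s z {0, y.succ} (c0 s D) < 1 := by
          rw [comm_three] at h2
          have h3 := le_la (HH_subst m2 h2 (HH_la (s := s) (i := z) (J := {0, y.succ}) (c0 s D)))
          rw [min_eq_right (la_le_one _)] at h3
          exact lt_of_le_of_lt h3 hlt
        obtain ⟨Cc, hCc, hl⟩ := lip_eta hb h.g0 hst hD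
        obtain ⟨d', a1, a2, a3⟩ := hl h0 h.P h.I h.rich h.gdp (h.robSl R) m4 h2
          (by rw [lamI_la h n2 n1 n3' hRY h0.le h1]; exact hlz) dens
        exact ⟨Cc, d', hCc, a1, fun c hc _ => a3 c hc⟩
    · have hg := h.g0
      refine ⟨1 + 3 / g, 1, by positivity, one_pos, fun c hc hc' => ?_⟩
      have := hK hone c hc' hc.2
      have h3 := la_le_eta (s := s) hD m1 c
      linarith
  obtain ⟨K, d', hK0, hd'0, hlip⟩ := hlip
  refine ⟨y, R, K, min d d', n1, n2, n3, hRY, hK0, lt_min hd0 hd'0, (min_le_left _ _).trans hd1, fun c hc => ⟨?_, ?_⟩⟩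
  · have a1 := min_le_left d d'
    have a2 := min_le_right d d'
    exact hlip c ⟨by linarith [hc.1], hc.2⟩ (by linarith [hc.1])
  · have a1 := min_le_left d d'
    exact hd c ⟨by linarith [hc.1], hc.2⟩
end

end Pool.Agent.Helper31.NSB
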