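import Pool.Agent.Helper79.NF.Def
import Pool.Agent.Helper31.EC.Sep
import Pool.Agent.Helper57.TA.Sc
import Pool.Agent.Helper3.LF.Mono

/-! CASE B of the chain for `R^4` (`d = 1`): the corner `T` over a label `kappa_c`, exact calculus. Coordinates
`t` (weight 1), `y` (weight 1), `R` (weight `w1`), `z` (weight `w`); velocities `1, x, F, v`; labels `K s` of the
windows `s ∈ Sc` (`0 ∈ Sc` is the base). Connectedness of `T` is NOT assumed; it is replaced by `Agr`: a function of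
the line which agrees on an event with a function of the (fat) point is known to the label of the window.
Goal: a sheet for `z` beyond the box of the label: `OutL` (literal form); intermediate: `OutZ` (fresh form). -/

set_option autoImplicit false

namespace Pool.Agent.Helper31.NSB

open Pool.Agent.Helper69.RK Pool.Agent.Helper31.EC Pool.Agent.Helper82.TP Pool.Agent.Helper79.NF
open Pool.Agent.Helper57.TA (sc)
open Pool.Agent.Helper3.LF (Mon)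

noncomputable section

open Sp QS

/-- data of the corner: raw corner (`t x y R F z v`, labels `K s`), literal variables of the line and of the point -/
structure RD (S : Sp) extends HD0 S where
  α : ℕ → Type
  VA : ∀ k, (S.F k).Ω → α k
  γ : ℕ → Type
  VB : ∀ k, (S.F k).Ω → γ k

/-- frames of the labels: centres of the cells of `t`, `y`; `R ~ r0 + rt t + ry y`; `z ~ z0 + k0 t + k1 y + c R` -/
structure FR (S : Sp) where
  t0 : ℝ → QS S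
  y0 : ℝ → QS S
  r0 : ℝ → QS S
  rt : ℝ → QS S
  ry : ℝ → QS S
  z0 : ℝ → QS S
  k0 : ℝ → QS S
  k1 : ℝ → QS S
  c : ℝ → QS S

/-- AGREEMENT PRINCIPLE at the window `s` (point functions may use the label `K s'`): a literal function of the line and
of `K s` which agrees to precision `δ` on an event with a literal function of the point and of `K s'` is known there
to the label `K s` to precision `δ` -/
def Agr {S : Sp} (H : RD S) (s s' : ℝ) : Prop :=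
  ∀ (E : ∀ k, (S.F k).Ω → Prop) (hE : 0 < ul (S.pr E)) (gA gB : QS S) (δ : ℝ), 0 < δ → δ ≤ 1 →
    Lit (fun k ω => (H.VA k ω, H.K s k ω)) gA → Lit (fun k ω => (H.VB k ω, H.K s' k ω)) gB →
    QS.rest E hE (gA - gB) ∈ Id (S.rest E) δ → restL E hE (dg gB δ) ≤ restL E hE (H.κ s)

/-- literal nesting of the labels -/
def LNest {S : Sp} (H : RD S) (Sc : Set ℝ) : Prop :=
  ∀ s ∈ Sc, ∀ s' ∈ Sc, s ≤ s' → ∀ᶠ k in UF, ∀ ω ω', (S.F k).μ ω ≠ 0 → (S.F k).μ ω' ≠ 0 → (S.F k).Z ω ω' →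
    H.K s' k ω = H.K s' k ω' → H.K s k ω = H.K s k ω'

/-- literal variable of the line in the window `s` -/
def VAs {S : Sp} (H : RD S) (s : ℝ) : ∀ k, (S.F k).Ω → H.α k × H.β s k := fun k ω => (H.VA k ω, H.K s k ω)

/-- literal variable of the point in the window `s` -/
def VBs {S : Sp} (H : RD S) (s : ℝ) : ∀ k, (S.F k).Ω → H.γ k × H.β s k := fun k ω => (H.VB k ω, H.K s k ω)

/-- the common fields without the unsaturated coordinate: weights `1, 1, w1, w` (`1 ≤ w1`, `1 ≤ w`, no order) -/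
structure C0 {S : Sp} (H : RD S) (f : FR S) (w1 w : ℝ) (Sc : Set ℝ) : Prop where
  -- scales, labels
  nn : ∀ s ∈ Sc, 0 ≤ s
  zero : (0 : ℝ) ∈ Sc
  κ0 : H.κ 0 = ⊥
  bdd : ∀ s ∈ Sc, Bdd (H.K s)
  mono : ∀ s ∈ Sc, ∀ s' ∈ Sc, s ≤ s' → H.κ s ≤ H.κ s'
  nest : LNest H Sc
  -- literal variables of the line and of the point
  bA : Bdd H.VA
  iA : io H.VA = H.L
  bB : Bdd H.VB
  iB : io H.VB = H.B
  lA : Lit H.VA H.x ∧ Lit H.VA H.a ∧ Lit H.VA H.F ∧ Lit H.VA H.cR ∧ Lit H.VA H.v ∧ Lit H.VA H.az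
  lB : Lit H.VB H.t ∧ Lit H.VB H.y ∧ Lit H.VB H.R ∧ Lit H.VB H.z
  -- time, leaks, direction
  time : h (dg H.t 1) H.L = 1
  leakA : ∀ s ∈ Sc, I (H.κ s) (dg H.t 1) (H.L ⊔ dg H.t s) = 0
  T1 : ∀ s ∈ Sc, I (dg H.x 1) (H.κ s ⊔ H.B) ⊥ = 0
  rich : ∃ g : ℝ, 0 < g ∧ ∀ (T : Sp) (p : Pj T S) (E : ∀ k, (T.F k).Ω → Prop) (hE : 0 < ul (T.pr E)) (r : ℝ),
    0 ≤ r → r ≤ 1 → g * r ≤ h (restL E hE (p.map (dg H.x r))) (restL E hE (p.map H.B))
  -- frames, functions of the labels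
  lt : ∀ s ∈ Sc, Lit (H.K s) (f.t0 s) ∧ Lit (H.K s) (f.y0 s)
  lr : ∀ s ∈ Sc, Lit (H.K s) (f.r0 s) ∧ Lit (H.K s) (f.rt s) ∧ Lit (H.K s) (f.ry s)
  lz : ∀ s ∈ Sc, Lit (H.K s) (f.z0 s) ∧ Lit (H.K s) (f.k0 s) ∧ Lit (H.K s) (f.k1 s) ∧ Lit (H.K s) (f.c s)
  ft : ∀ s ∈ Sc, H.t - f.t0 s ∈ Id S s ∧ dg (f.t0 s) 1 ≤ dg H.t s
  fy : ∀ s ∈ Sc, H.y - f.y0 s ∈ Id S s ∧ dg (f.y0 s) 1 ≤ dg H.y s
  frR : ∀ s ∈ Sc, H.R - (f.r0 s + f.rt s * H.t + f.ry s * H.y) ∈ Id S (w1 * s)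
  frZ : ∀ s ∈ Sc, H.z - (f.z0 s + f.k0 s * H.t + f.k1 s * H.y + f.c s * H.R) ∈ Id S (w * s)
  -- fullness of `M = (t, y, R)` beyond the box of the label, on all events
  full : ∀ s ∈ Sc, w1 * s ≤ 1 → ∀ (T : Sp) (p : Pj T S) (E : ∀ k, (T.F k).Ω → Prop) (hE : 0 < ul (T.pr E)),
    3 - (2 + w1) * s ≤ h (restL E hE (p.map H.M)) (restL E hE (p.map (H.κ s)))
  -- agreement
  agr : ∀ s ∈ Sc, ∀ s' ∈ Sc, s ≤ s' → Agr H s s'
  -- numbers
  hw1 : 1 ≤ w1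
  hw : 1 ≤ w

/-- the common fields (used for `w1 ≤ w`) -/
structure CC {S : Sp} (H : RD S) (f : FR S) (w1 w ρ : ℝ) (Sc : Set ℝ) : Prop extends C0 H f w1 w Sc where
  -- `z` is robustly unsaturated over the digits of `M`
  uns : ∀ (T : Sp) (p : Pj T S) (E : ∀ k, (T.F k).Ω → Prop) (hE : 0 < ul (T.pr E)) (a b : ℝ), 0 ≤ a → a ≤ b → b ≤ 1 →
    h (restL E hE (p.map (dg H.z b))) (restL E hE (p.map (dg H.z a ⊔ H.iso b))) ≤ (1 - ρ) * (b - a)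
  hρ : 0 < ρ

/-- `z` is robustly unsaturated over all of `M`, in the range of the windows: what level 1 gives for `T` -/
def UnA {S : Sp} (H : RD S) (w ρ : ℝ) (Sc : Set ℝ) : Prop :=
  ∀ s ∈ Sc, ∀ (T : Sp) (p : Pj T S) (E : ∀ k, (T.F k).Ω → Prop) (hE : 0 < ul (T.pr E)) (a b : ℝ), 0 ≤ a → a ≤ b →
    b ≤ w * s → h (restL E hE (p.map (dg H.z b))) (restL E hE (p.map (dg H.z a ⊔ H.M))) ≤ (1 - ρ) * (b - a)

/-- box coordinates of the window `s` (weights `1, 1, w1`) -/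
def Box {S : Sp} (H : RD S) (f : FR S) (w1 s : ℝ) (g : Fin 3 → QS S) : Prop :=
  H.t - f.t0 s = sc S s * g 0 ∧ H.y - f.y0 s = sc S s * g 1 ∧
  H.R - (f.r0 s + f.rt s * H.t + f.ry s * H.y) = sc S (w1 * s) * g 2

/-- THE OUTPUT, LITERAL FORM: on an event `z` is, in the box coordinates of the window `s0`, a polynomial of degree `D`
whose coefficients are literal functions of the point in the window `s` (`cB`) and agree with literal functions of the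
line (`cA`); the sheet is deeper than the box of `K s` by `v` -/
def OutL {S : Sp} (H : RD S) (f : FR S) (w1 w : ℝ) (D : ℕ) (s0 s v : ℝ) : Prop :=
  0 < v ∧ s0 ≤ s ∧ w * s + v ≤ 1 ∧ ∃ (E : ∀ k, (S.F k).Ω → Prop) (hE : 0 < ul (S.pr E)) (cA cB : Mon 3 D → QS S)
    (g : Fin 3 → QS S), (∀ a, Lit (VAs H s) (cA a)) ∧ (∀ a, Lit (VBs H s) (cB a)) ∧
    (∀ a, QS.rest E hE (cA a - cB a) ∈ Id (S.rest E) (w * (s - s0) + v)) ∧ Box H f w1 s0 g ∧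
    QS.rest E hE (H.z - (f.z0 s0 + f.k0 s0 * H.t + f.k1 s0 * H.y + f.c s0 * H.R) -
      sc S (w * s0) * ∑ a, cB a * ∏ i, g i ^ (a.1 i : ℕ)) ∈ Id (S.rest E) (w * s + v)

/-- INTERMEDIATE OUTPUT, FRESH FORM: a label `V` (of an extension `W`) with a polynomial `g` of degree `D`, coefficients
known to `V`, such that at a FRESH point of the line (copy given the literal variable of the line) `V` is blind for the
digits up to `m` of `M` and `g` is a sheet for `z`, of precision `v` -/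
def OutZ {S : Sp} (H : RD S) (D : ℕ) (m v : ℝ) : Prop :=
  0 < v ∧ v ≤ m ∧ m ≤ 1 ∧
  ∃ (W : Sp) (p : Pj W S) (V : W.L) (g : MvPolynomial (Fin 3) (QS W)), g ∈ PK V ∧ g.totalDegree ≤ D ∧
    I ((p.join (VAs H 0)).p1.map V) ((p.join (VAs H 0)).p2.map (H.iso m)) ((p.join (VAs H 0)).p2.map (H.κ 0)) = 0 ∧
    (p.join (VAs H 0)).p2.qs H.z - MvPolynomial.eval (fun i => (p.join (VAs H 0)).p2.qs ((![H.t, H.y, H.R] : Fin 3 → QS S) i))
      (MvPolynomial.map (p.join (VAs H 0)).p1.qs g) ∈ Id _ v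

/-- scales are dense in `[0, σ]` -/
def Dns (Sc : Set ℝ) (σ : ℝ) : Prop := ∀ a b : ℝ, 0 ≤ a → a < b → b ≤ σ → ∃ s ∈ Sc, a < s ∧ s < b

/-- fullness of the projections `z - g R` over `(t, y)` for constants `g` (literal functions of the line and of the
point which agree on an event) close to the tilt of the label -/
def Fz {S : Sp} (H : RD S) (f : FR S) (w1 w : ℝ) (Sc : Set ℝ) : Prop :=
  ∀ s ∈ Sc, ∀ s' ∈ Sc, ∀ (E : ∀ k, (S.F k).Ω → Prop) (hE : 0 < ul (S.pr E)) (gA gB : QS S),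
    Lit (VAs H 0) gA → Lit (VBs H s') gB → QS.rest E hE gA = QS.rest E hE gB →
    QS.rest E hE (gB - f.c s) ∈ Id (S.rest E) ((w - w1) * s) → w * s ≤ 1 →
    1 - w * s ≤ h (dg (QS.rest E hE (H.z - gB * H.R)) 1) (restL E hE (H.κ s ⊔ H.q))

/-! ### exchange of `R` and `z` (the coordinate of the highest weight is unsaturated) -/

/-- exchange of `R` and `z` -/
def swp {S : Sp} (H : RD S) : RD S :=
  { H with R := H.z, F := H.v, z := H.R, v := H.F }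

/-- frames after the exchange: untilted frames over `(t, y)` -/
def swf {S : Sp} (f : FR S) : FR S :=
  { f with
    r0 := fun s => f.z0 s + f.c s * f.r0 s
    rt := fun s => f.k0 s + f.c s * f.rt s
    ry := fun s => f.k1 s + f.c s * f.ry s
    z0 := f.r0
    k0 := f.rt
    k1 := f.ry
    c := fun _ => 0 }

/-- row B_ISO (helper30): `w1 ≤ w` -/
def ST_ISO : Prop := ∀ (S : Sp) (H : RD S) (f : FR S) (w1 w ρ σ : ℝ) (Sc : Set ℝ),
  C0 H f w1 w Sc → UnA H w ρ Sc → 0 < ρ → w1 ≤ w → w * σ = 1 → (∀ s ∈ Sc, s ≤ σ) → Dns Sc σ → CC H f w1 w ρ Sc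

/-- row B_SWAP (helper30): exchange if `w < w1` -/
def ST_SWAP : Prop := ∀ (S : Sp) (H : RD S) (f : FR S) (w1 w ρ σ : ℝ) (Sc : Set ℝ),
  C0 H f w1 w Sc → UnA H w ρ Sc → 0 < ρ → w < w1 → Fz H f w1 w Sc → w1 * σ = 1 → (∀ s ∈ Sc, s ≤ σ) → Dns Sc σ →
  ∃ ρ' : ℝ, 0 < ρ' ∧ CC (swp H) (swf f) w w1 ρ' Sc

/-- row B_UNSWAP: a linear sheet of the exchanged structure is a linear sheet of the structure -/
def ST_UNSWAP : Prop := ∀ (S : Sp) (H : RD S) (f : FR S) (w1 w ρ' : ℝ) (Sc : Set ℝ),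
  C0 H f w1 w Sc → w < w1 → CC (swp H) (swf f) w w1 ρ' Sc → ∀ s ∈ Sc, ∀ v : ℝ,
  OutL (swp H) (swf f) w w1 1 s s v → ∃ v' : ℝ, OutL H f w1 w 1 s s v'

/-! ### `w1 > 1`: no vertical bush -/

/-- NO VERTICAL BUSH at the window `s`, relative precision `N`: the velocity of `R` is a function of the base line,
the velocity of `z - c R` (`c` = tilt of `K s`) a function of the base line, `t` and `R` (without `R` if `w = w1`) -/
structure NBraw {S : Sp} (H : RD S) (f : FR S) (w1 w s N : ℝ) : Prop where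
  pos : 0 < N
  F : dg H.F ((w1 - 1) * s + N) ≤ H.κ s ⊔ (dg H.a 1 ⊔ dg H.x 1 ⊔ dg H.t 1)
  v : dg (H.v - f.c s * H.F) ((w - 1) * s + N) ≤ H.κ s ⊔ (dg H.a 1 ⊔ dg H.x 1 ⊔ dg H.t 1 ⊔ dg H.R 1)
  v1 : w = w1 → dg (H.v - f.c s * H.F) ((w - 1) * s + N) ≤ H.κ s ⊔ (dg H.a 1 ⊔ dg H.x 1 ⊔ dg H.t 1)

/-- velocities relative to the frame of `K s` -/
def Fh {S : Sp} (H : RD S) (f : FR S) (s : ℝ) : QS S := H.F - (f.rt s + f.ry s * H.x)
def vh {S : Sp} (H : RD S) (f : FR S) (s : ℝ) : QS S := H.v - (f.k0 s + f.k1 s * H.x + f.c s * H.F)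
/-- `R` relative to the frame of `K s` -/
def Rh {S : Sp} (H : RD S) (f : FR S) (s : ℝ) : QS S := H.R - (f.r0 s + f.rt s * H.t + f.ry s * H.y)
/-- `z` relative to the frame of `K s` -/
def Zh {S : Sp} (H : RD S) (f : FR S) (s : ℝ) : QS S :=
  H.z - (f.z0 s + f.k0 s * H.t + f.k1 s * H.y + f.c s * H.R)

/-- NO VERTICAL BUSH, reduced to the visible digits `D` of the window `s` -/
structure NBred {S : Sp} (H : RD S) (f : FR S) (w1 w s N D : ℝ) : Prop where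
  F : dg (Fh H f s) ((w1 - 1) * s + N) ≤ H.κ s ⊔ (dg H.t (s + D) ⊔ dg H.y (s + D) ⊔ dg H.x D)
  v : dg (vh H f s) ((w - 1) * s + N) ≤
    H.κ s ⊔ (dg H.t (s + D) ⊔ dg H.y (s + D) ⊔ dg (Rh H f s) (w1 * s + D) ⊔ dg H.x D)
  v1 : w = w1 → dg (vh H f s) ((w - 1) * s + N) ≤ H.κ s ⊔ (dg H.t (s + D) ⊔ dg H.y (s + D) ⊔ dg H.x D)

/-- row B_NB (helper54), `st` stands for `ST 1 2` -/
def ST_NB (st : Prop) : Prop := st → ∀ (S : Sp) (H : RD S) (f : FR S) (w1 w ρ σ : ℝ) (Sc : Set ℝ),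
  CC H f w1 w ρ Sc → Fz H f w1 w Sc → 1 < w1 → w1 ≤ w → 0 < σ → w * σ ≤ 1 → (∀ s ∈ Sc, s ≤ σ) →
  Dns Sc σ → ∀ s ∈ Sc, ∀ N : ℝ, 0 < N → N < s → NBraw H f w1 w s N

/-- row B_NBR (helper90, done): reduction of the slopes to the visible digits -/
def ST_NBR : Prop := ∀ (S : Sp) (H : RD S) (f : FR S) (w1 w ρ σ : ℝ) (Sc : Set ℝ),
  CC H f w1 w ρ Sc → 1 < w1 → 1 < w → 0 < σ → (∀ s ∈ Sc, s ≤ σ) → Dns Sc σ → ∀ s ∈ Sc, ∀ N : ℝ,
  NBraw H f w1 w s N → ∀ N' D : ℝ, 0 < N' → N' ≤ N → N' ≤ D → N' < (w1 - 1) * D → w1 * N' < (w - 1) * D → s + D < σ →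
  w * (s + D) ≤ 1 → w1 * (s + D) ≤ 1 → NBred H f w1 w s N' D

/-! ### `w1 > 1`: the second corner (zoom of the first one into the box of `K s`), slopes known -/

/-- the second corner: `F` is known to the base point and the direction to precision `u`, `v` to the visible digits `u`
of `M` and the direction to precision `r1` -/
structure HT {S : Sp} (H : RD S) (f : FR S) (w1 w ρ σ u r1 : ℝ) (Sc : Set ℝ) : Prop where
  cc : CC H f w1 w ρ Sc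
  le : ∀ s ∈ Sc, s ≤ σ
  dns : Dns Sc σ
  hσS : σ ∈ Sc
  lfq : dg H.F u ≤ H.q ⊔ dg H.x 1
  slope : dg H.v r1 ≤ H.iso u ⊔ dg H.x u
  slope1 : w = w1 → dg H.v r1 ≤ dg H.t u ⊔ dg H.y u ⊔ dg H.x u
  hσ : 0 < σ
  hu : 0 < u
  hr1 : 0 < r1
  hr : r1 ≤ u
  hu1 : u ≤ (w1 - 1) * σ
  hw1σ : w1 * σ ≤ 1
  hw1 : 1 < w1
  hle : w1 ≤ w

/-- row B_ZOOM (helper90): the box of `K s` is a corner -/
def ST_ZOOM : Prop := ∀ (S : Sp) (H : RD S) (f : FR S) (w1 w ρ σ : ℝ) (Sc : Set ℝ),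
  CC H f w1 w ρ Sc → 1 < w1 → w1 ≤ w → 0 < σ → w * σ = 1 → (∀ s ∈ Sc, s ≤ σ) → Dns Sc σ → ∀ s ∈ Sc, 0 < s → s < σ →
  ∀ N : ℝ, NBraw H f w1 w s N → ∃ (S' : Sp) (H' : RD S') (f' : FR S') (ρ' σ' u r1 : ℝ) (Sc' : Set ℝ),
    HT H' f' w1 w ρ' σ' u r1 Sc' ∧ ∀ v' : ℝ, OutL H' f' w1 w 1 0 0 v' → ∃ v : ℝ, OutL H f w1 w 1 s s v

/-- row B_HEIS (helper62): the second corner has a slow sheet of positive precision -/
def ST_HEIS : Prop := ∀ (S : Sp) (H : RD S) (f : FR S) (w1 w ρ σ u r1 : ℝ) (Sc : Set ℝ),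
  HT H f w1 w ρ σ u r1 Sc → ∃ m v : ℝ, OutZ H 1 m v

/-- row B_NSH (helper97): slow blind sheets are literal -/
def ST_NSH : Prop := ∀ (S : Sp) (H : RD S) (f : FR S) (w1 w ρ : ℝ) (Sc : Set ℝ),
  CC H f w1 w ρ Sc → ∀ m v : ℝ, OutZ H 1 m v → ∃ v' : ℝ, OutL H f w1 w 1 0 0 v'

/-! ### `w1 = 1` or `w = 1`: flat corners -/

/-- row B_FLAT1 (helper69): `w1 = 1` (the velocity of `R` is independent of the point too), any `w` -/
def ST_FLAT1 : Prop := ∀ (S : Sp) (H : RD S) (f : FR S) (w ρ σ : ℝ) (Sc : Set ℝ), CC H f 1 w ρ Sc →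
  (∀ s ∈ Sc, I (dg H.x 1 ⊔ dg H.F 1) (H.κ s ⊔ H.B) ⊥ = 0) → 0 < σ → w * σ ≤ 1 → (∀ s ∈ Sc, s ≤ σ) → σ ∈ Sc →
  Dns Sc σ → ∃ s ∈ Sc, ∃ v : ℝ, OutL H f 1 w 4 s s v

/-- row B_FLAT2 (helper32): `w = 1 < w1`: exchange, FLAT1 for the exchanged structure, the sheet of `R` over `(t, y, z)`
is a sheet of `z` over `(t, y, R)`, linear at a smaller window -/
def ST_FLAT2 : Prop := ∀ (S : Sp) (H : RD S) (f : FR S) (w1 ρ σ : ℝ) (Sc : Set ℝ), C0 H f w1 1 Sc → UnA H 1 ρ Sc →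
  0 < ρ → 1 < w1 → Fz H f w1 1 Sc → (∀ s ∈ Sc, I (dg H.x 1 ⊔ dg H.v 1) (H.κ s ⊔ H.B) ⊥ = 0) → w1 * σ = 1 →
  (∀ s ∈ Sc, s ≤ σ) → σ ∈ Sc → Dns Sc σ → ∃ s0 ∈ Sc, ∃ s ∈ Sc, s0 < s ∧ ∃ v : ℝ, OutL H f w1 1 1 s0 s v

/-- T-LEVEL THEOREM of case B -/
def ST_TOP (st : Prop) : Prop := st → ∀ (S : Sp) (H : RD S) (f : FR S) (w1 w ρ σ : ℝ) (Sc : Set ℝ),
  C0 H f w1 w Sc → UnA H w ρ Sc → 0 < ρ → Fz H f w1 w Sc → (w < w1 → Fz (swp H) (swf f) w w1 Sc) →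
  max w1 w * σ = 1 → (∀ s ∈ Sc, s ≤ σ) → σ ∈ Sc → Dns Sc σ →
  (w1 = 1 → ∀ s ∈ Sc, I (dg H.x 1 ⊔ dg H.F 1) (H.κ s ⊔ H.B) ⊥ = 0) →
  (w = 1 → 1 < w1 → ∀ s ∈ Sc, I (dg H.x 1 ⊔ dg H.v 1) (H.κ s ⊔ H.B) ⊥ = 0) →
  ∃ D : ℕ, D ≤ 4 ∧ ∃ s0 ∈ Sc, ∃ s ∈ Sc, w1 * s0 + w * (s - s0) < 1 ∧ ∃ v : ℝ, OutL H f w1 w D s0 s v

end

end Pool.Agent.Helper31.NSB
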