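import Pool.Agent.Helper31.NSB.St

/-! CASE B: the theorem at the level of the corner `T` from its rows. -/

set_option autoImplicit false

namespace Pool.Agent.Helper31.NSB

open Pool.Agent.Helper69.RK Pool.Agent.Helper31.EC Pool.Agent.Helper82.TP Pool.Agent.Helper79.NF

noncomputable section

open Sp QS

/-- two scales `0 < N < s < σ`, `s ∈ Sc` -/
theorem exists_scale {Sc : Set ℝ} {σ : ℝ} (hd : Dns Sc σ) (hσ : 0 < σ) : ∃ s ∈ Sc, 0 < s ∧ s < σ := hd 0 σ le_rfl hσ le_rfl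

/-- the corner with `1 < w1 ≤ w` -/
theorem top_main {st : Prop} (hst : st) (nb : ST_NB st) (zm : ST_ZOOM) (hs : ST_HEIS) (nsh : ST_NSH)
    (S : Sp) (H : RD S) (f : FR S) (w1 w ρ σ : ℝ) (Sc : Set ℝ) (cc : CC H f w1 w ρ Sc) (fz : Fz H f w1 w Sc)
    (hw1 : 1 < w1) (hle : w1 ≤ w) (hwσ : w * σ = 1) (hle' : ∀ s ∈ Sc, s ≤ σ) (hd : Dns Sc σ) :
    ∃ s ∈ Sc, ∃ v : ℝ, OutL H f w1 w 1 s s v := by
  have hw : 0 < w := by linarith
  have hσ : 0 < σ := by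
    by_contra h
    push Not at h
    have := mul_nonpos_of_nonneg_of_nonpos hw.le h
    linarith
  obtain ⟨s, hsS, h0, h1⟩ := exists_scale hd hσ
  have h2 := nb hst S H f w1 w ρ σ Sc cc fz hw1 hle hσ hwσ.le hle' hd s hsS (s / 2) (by linarith) (by linarith)
  obtain ⟨S', H', f', ρ', σ', u, r1, Sc', hT, hb⟩ := zm S H f w1 w ρ σ Sc cc hw1 hle hσ hwσ hle' hd s hsS h0 h1 _ h2
  obtain ⟨m, v, ho⟩ := hs S' H' f' w1 w ρ' σ' u r1 Sc' hT
  obtain ⟨v', hl⟩ := nsh S' H' f' w1 w ρ' Sc' hT.cc m v ho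
  obtain ⟨v'', hl'⟩ := hb v' hl
  exact ⟨s, hsS, v'', hl'⟩

/-- **T-LEVEL THEOREM of case B from its rows** -/
theorem st_top {st : Prop} (iso : ST_ISO) (sw : ST_SWAP) (us : ST_UNSWAP) (nb : ST_NB st) (zm : ST_ZOOM) (hs : ST_HEIS)
    (nsh : ST_NSH) (f1 : ST_FLAT1) (f2 : ST_FLAT2) : ST_TOP st := by
  intro hst S H f w1 w ρ σ Sc c0 una hρ fz fzs hσ hle hσS hd i1 i2
  have hw1 := c0.hw1
  have hw := c0.hw
  have hmax : 0 < max w1 w := lt_of_lt_of_le one_pos (hw1.trans (le_max_left _ _))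
  have hσ0 : 0 < σ := by
    by_contra h
    push Not at h
    have := mul_nonpos_of_nonneg_of_nonpos hmax.le h
    linarith
  rcases hw1.eq_or_lt with h1 | h1
  · -- `w1 = 1`
    subst h1
    rw [max_eq_right hw] at hσ
    have cc := iso S H f 1 w ρ σ Sc c0 una hρ hw hσ hle hd
    obtain ⟨s, hs1, v, hv⟩ := f1 S H f w ρ σ Sc cc (i1 rfl) hσ0 hσ.le hle hσS hd
    exact ⟨4, le_rfl, s, hs1, s, hs1, by nlinarith [hv.1, hv.2.2.1, c0.nn s hs1], v, hv⟩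
  rcases hw.eq_or_lt with h2 | h2
  · -- `w = 1 < w1`
    subst h2
    rw [max_eq_left hw1] at hσ
    obtain ⟨s0, hs0, s, hs1, hlt, v, hv⟩ := f2 S H f w1 ρ σ Sc c0 una hρ h1 fz (i2 rfl h1) hσ hle hσS hd
    exact ⟨1, by norm_num, s0, hs0, s, hs1, by nlinarith [hle s hs1, c0.nn s0 hs0], v, hv⟩
  rcases le_or_gt w1 w with h3 | h3
  · -- `1 < w1 ≤ w`
    rw [max_eq_right h3] at hσ
    have cc := iso S H f w1 w ρ σ Sc c0 una hρ h3 hσ hle hd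
    obtain ⟨s, hs1, v, hv⟩ := top_main hst nb zm hs nsh S H f w1 w ρ σ Sc cc fz h1 h3 hσ hle hd
    exact ⟨1, by norm_num, s, hs1, s, hs1, by nlinarith [hv.1, hv.2.2.1, c0.nn s hs1], v, hv⟩
  · -- `1 < w < w1`
    rw [max_eq_left h3.le] at hσ
    obtain ⟨ρ', hρ', cc⟩ := sw S H f w1 w ρ σ Sc c0 una hρ h3 fz hσ hle hd
    obtain ⟨s, hs1, v, hv⟩ := top_main hst nb zm hs nsh S (swp H) (swf f) w w1 ρ' σ Sc cc (fzs h3) h2 h3.le hσ hle hd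
    obtain ⟨v', hv'⟩ := us S H f w1 w ρ' Sc c0 h3 cc s hs1 v hv
    exact ⟨1, by norm_num, s, hs1, s, hs1, by nlinarith [hv.1, hv.2.2.1, c0.nn s hs1], v', hv'⟩

end

end Pool.Agent.Helper31.NSB
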