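import Pool.Agent.Helper31.NSB.Nml
import Pool.Agent.Helper30.TYP.Typ

/-! CASE B, level 1: existence of typical windows, and their permutations. -/

set_option autoImplicit false

namespace Pool.Agent.Helper31.NSB

open Finset Filter Topology Pool.Agent.Helper69.RK Pool.Agent.Helper31.EC Pool.Agent.Helper31.EC.Sp
open Pool.Agent.Helper40.EL Pool.Agent.Helper40.NSK Pool.Agent.Helper42.NS Pool.Agent.Helper52.KP
open Pool.Agent.Helper52.SL Pool.Agent.Helper80.MX Pool.Agent.Helper3.LF Pool.Agent.Helper89.LX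
open Pool.Agent.Helper39.LIP Pool.Agent.Helper91.GR Pool.Agent.Helper19.S12 Set
open Pool.Agent.Helper46.PM Pool.Agent.Helper30.TYP MeasureTheory
open Pool.Agent.Helper59.EV (ST)

noncomputable section

variable {S : Sp} {s : Sys S 3} {D : ℕ} {g : ℝ}

/-- a window with valid names and derivatives is a typical window -/
theorem win_mk (h : Rbb g s) (hD : 1 ≤ D) {y R z : Fin 3} (n1 : y ≠ R) (n2 : y ≠ z) (n3 : R ≠ z)
    (hv : ∀ c, 0 < c → c < c0 s D → VolB s y R z c) {c w y' : ℝ} (hc0 : 0 < c) (hc1 : c < c0 s D)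
    (hn : VN s D y R z c) (hw : 1 ≤ w) (hdw : HasDerivAt (eta s D) w c)
    (hla : ∀ (i : Fin 3) (J : Finset (Fin 4)), ∃ v : ℝ, HasDerivAt (la s i J) v c) (hy : y' ≤ 3 - g / 2)
    (hdy : HasDerivAt (s.F 0) y' (eta s D c)) : ∃ w1 d' : ℝ, Win D s y R z c w1 w d' := by
  have m1 : R.succ ∉ ({0, y.succ} : Finset (Fin 4)) := notMem_two n1
  have m3 : z.succ ∉ ({0, y.succ, R.succ} : Finset (Fin 4)) := notMem_three n2 n3
  have hle1 := Sel4.c0_le_one hD s
  obtain ⟨w1, hw1⟩ := hla R {0, y.succ}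
  obtain ⟨w', hw'⟩ := hla z {0, y.succ, R.succ}
  have hg := h.g0
  have e1 : w' = w := touch (Eventually.of_forall fun x => la_le_eta hD m3 x) hn.2 hw' hdw
  rw [e1] at hw'
  have hmin : 0 < min c (c0 s D - c) := lt_min hc0 (by linarith)
  have hm1 := min_le_left c (c0 s D - c)
  have hm2 := min_le_right c (c0 s D - c)
  refine ⟨w1, min c (c0 s D - c) / 2, ⟨n1, n2, n3, by linarith, by linarith, by linarith, fun b hb => ?_, fun b hb => ?_,
    hn.1, hn.2, hw1, hw', hdw, fun he => ?_, ?_, hw, g / 2, by linarith, y', hy, hdy⟩⟩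
  · exact hv b (by linarith [hb.1]) (by linarith [hb.2])
  · exact eta_lt_one hD (by linarith [hb.1]) (by linarith [hb.2])
  · exact touch (Eventually.of_forall fun x => la_le_eta hD m1 x) (he.trans hn.2) hw1 hdw
  · have hmono : MonotoneOn (fun x => la s R {0, y.succ} x - x) (Ioo 0 (c0 s D)) := by
      intro a ha b hb hab
      exact la_diff hD m1 ha.1.le hab (hb.2.le.trans hle1) (eta_lt_one hD hb.1.le hb.2)
    have := deriv_nonneg_of_mono hmono ⟨hc0, hc1⟩ (hw1.sub (hasDerivAt_id c))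
    linarith

/-- existence of typical windows -/
theorem exists_win (h : Rbb g s) (hD : 1 ≤ D)
    (dens : Tendsto (fun δ : ℝ => volume (Set.Ioo (1 - δ) 1 \ defic s (3 - g / 2)) / ENNReal.ofReal δ) (𝓝[>] 0) (𝓝 0))
    {y R z : Fin 3} (n1 : y ≠ R) (n2 : y ≠ z) (n3 : R ≠ z) {K d : ℝ} (hd0 : 0 < d) (hd1 : d ≤ c0 s D)
    (hlip : ∀ c ∈ Set.Ioo (c0 s D - d) (c0 s D), 1 - eta s D c ≤ K * (c0 s D - c))
    (hv1 : ∀ c, 0 < c → c < c0 s D → VolB s y R z c) (hv2 : ∀ c, 0 < c → c < c0 s D → VolB s y z R c)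
    (hn : ∀ c ∈ Set.Ioo (c0 s D - d) (c0 s D), VN s D y R z c ∨ VN s D y z R c) {P : ℝ → Prop}
    (hP : ∀ᵐ c : ℝ, c ∈ Set.Ioo (0 : ℝ) 1 → P c) :
    ∃ c, P c ∧ ∃ (R' z' : Fin 3) (w1 w d' : ℝ), Win D s y R' z' c w1 w d' := by
  have hle1 := Sel4.c0_le_one hD s
  have hd0' : 0 ≤ c0 s D - d := by linarith
  obtain ⟨c, -, hc, hPc, -, ⟨w, hw, hdw⟩, hla, ⟨y', hy, hdy⟩, -⟩ := typ (η := eta s D) (y := s.F 0) (c₀ := c0 s D)
    (d₀ := d) (C := K) (l := 1) (b := 3 - g / 2) hd0 hd0' hle1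
    (fun c hc c' hc' hcc => by
      have h4 := eta_speed (s := s) hD (by linarith [hc.1] : (0 : ℝ) ≤ c) hcc.le (by linarith [hc'.2])
      have h5 := eta_lt_one (s := s) hD (by linarith [hc'.1] : (0 : ℝ) ≤ c') hc'.2
      rcases min_le_iff.mp h4 with h6 | h6
      · linarith
      · linarith)
    (fun c hc => eta_lt_one hD (by linarith [hc.1]) hc.2) hlip dens
    (fun i : Fin 3 × Finset (Fin 4) => la s i.1 i.2) (fun i a _ b _ hab => la_mono hab)
    (P := P) (by
      filter_upwards [hP] with c hc hcc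
      exact hc ⟨by linarith [hcc.1], by linarith [hcc.2]⟩)
    (Q := fun _ => True) (Eventually.of_forall fun _ => trivial) (κ := Empty) (fun k => k.elim)
    (E := fun j : ℕ => ((1 : ℝ) / 2) ^ j) (fun k => k.elim) (fun j => by positivity) summable_geometric_two
    (fun k => k.elim) (fun k => k.elim) (fun k => k.elim) (δ := d) hd0
  have hc0 : 0 < c := by linarith [hc.1]
  have hla' : ∀ (i : Fin 3) (J : Finset (Fin 4)), ∃ v : ℝ, HasDerivAt (la s i J) v c := fun i J => by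
    obtain ⟨v, -, hv⟩ := hla (i, J)
    exact ⟨v, hv⟩
  rcases hn c hc with hv | hv
  · obtain ⟨w1, d', hwin⟩ := win_mk h hD n1 n2 n3 hv1 hc0 hc.2 hv hw hdw hla' hy hdy
    exact ⟨c, hPc, R, z, w1, w, d', hwin⟩
  · obtain ⟨w1, d', hwin⟩ := win_mk h hD n2 n1 (Ne.symm n3) hv2 hc0 hc.2 hv hw hdw hla' hy hdy
    exact ⟨c, hPc, z, R, w1, w, d', hwin⟩

/-- permutation of a typical window -/
theorem Win.pm {y R z : Fin 3} {c w1 w d : ℝ} (h : Win D s y R z c w1 w d) {e : Equiv.Perm (Fin 3)}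
    (he : Nms e y R z) : Win D (s.pm e) 0 1 2 c w1 w d := by
  have e1 : (fun b => la (s.pm e) 1 {0, (0 : Fin 3).succ} b) = fun b => la s R {0, y.succ} b := by
    funext b
    exact he.la_R
  have e2 : (fun b => la (s.pm e) 2 {0, (0 : Fin 3).succ, (1 : Fin 3).succ} b) =
      fun b => la s z {0, y.succ, R.succ} b := by
    funext b
    exact he.la_z
  have e3 : (fun b => eta (s.pm e) D b) = fun b => eta s D b := by
    funext b
    exact eta_pm s e b
  have e1' := fun b => congrFun e1 b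
  have e2' := fun b => congrFun e2 b
  have e3' := fun b => congrFun e3 b
  refine ⟨by decide, by decide, by decide, h.d0, h.cd, h.cd1, fun b hb => ?_, fun b hb => ?_, ?_, ?_, ?_, ?_, ?_, ?_,
    h.hw1, h.hw, ?_⟩
  · have h1 := h.vol b hb
    unfold VolB at h1 ⊢
    rw [e1' b, lvolP2_prI, he.z]
    exact h1
  · rw [e3' b]
    exact h.lt1 b hb
  · rw [e1' c, e2' c]
    exact h.ord
  · rw [e2' c, e3' c]
    exact h.top
  · rw [e1]
    exact h.dl
  · rw [e2]
    exact h.de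
  · rw [e3]
    exact h.dD
  · rw [e1' c, e2' c]
    exact h.eq
  · obtain ⟨a, ha, y', h1, h2⟩ := h.dfc
    refine ⟨a, ha, y', h1, ?_⟩
    rw [pm_F, e3' c]
    exact h2

end

end Pool.Agent.Helper31.NSB
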